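import Pool.Agent.helper40.QP.Seq

/-!
# MP_0c3135_co: the closed form of the bound
-/

set_option autoImplicit false

namespace Pool.Agent.helper40.QP

open Finset

/-- the closed form -/
noncomputable def gg (x : ℝ) : ℝ := x ^ ((Real.logb 2 x + 3) / 2)

theorem gg_pos {x : ℝ} (hx : 0 < x) : 0 < gg x := Real.rpow_pos_of_pos hx _

theorem gg_two_mul {x : ℝ} (hx : 0 < x) : gg (2 * x) = 4 * x * gg x := by
  unfold gg
  have h2 : (0 : ℝ) < 2 := by norm_num
  have h1 : Real.logb 2 (2 * x) = 1 + Real.logb 2 x := by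
    rw [Real.logb_mul (by norm_num) hx.ne', Real.logb_self_eq_one (by norm_num)]
  set L := Real.logb 2 x with hL
  have h3 : (2 : ℝ) ^ L = x := Real.rpow_logb h2 (by norm_num) hx
  rw [h1, Real.mul_rpow h2.le hx.le]
  have e1 : (1 + L + 3) / 2 = L * (1 / 2) + 2 := by ring
  have e2 : (1 + L + 3) / 2 = (L + 3) / 2 + 1 / 2 := by ring
  have h4 : (2 : ℝ) ^ ((1 + L + 3) / 2) = x ^ (1 / 2 : ℝ) * 4 := by
    rw [e1, Real.rpow_add h2, Real.rpow_mul h2.le, h3]
    norm_num
  have h5 : x ^ ((1 + L + 3) / 2) = x ^ ((L + 3) / 2) * x ^ (1 / 2 : ℝ) := by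
    rw [e2, Real.rpow_add hx]
  rw [h4, h5]
  have h6 : x ^ (1 / 2 : ℝ) * x ^ (1 / 2 : ℝ) = x := by
    rw [← Real.rpow_add hx]
    norm_num
  calc x ^ (1 / 2 : ℝ) * 4 * (x ^ ((L + 3) / 2) * x ^ (1 / 2 : ℝ))
      = 4 * (x ^ (1 / 2 : ℝ) * x ^ (1 / 2 : ℝ)) * x ^ ((L + 3) / 2) := by ring
    _ = 4 * x * x ^ ((L + 3) / 2) := by rw [h6]

theorem gg_mono {x y : ℝ} (hx : 1 ≤ x) (hxy : x ≤ y) : gg x ≤ gg y := by
  unfold gg
  have hx0 : 0 < x := by linarith
  have h1 : Real.logb 2 x ≤ Real.logb 2 y :=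
    Real.logb_le_logb_of_le (by norm_num) hx0 hxy
  have h0 : 0 ≤ Real.logb 2 x := Real.logb_nonneg (by norm_num) hx
  calc x ^ ((Real.logb 2 x + 3) / 2) ≤ x ^ ((Real.logb 2 y + 3) / 2) :=
        Real.rpow_le_rpow_of_exponent_le hx (by linarith)
    _ ≤ y ^ ((Real.logb 2 y + 3) / 2) := Real.rpow_le_rpow hx0.le hxy (by linarith)

theorem gg_step {x : ℝ} (hx : 2 ≤ x) : gg x * (1 + 5 / (4 * x)) ≤ gg (x + 1 / 2) := by
  have hx0 : 0 < x := by linarith
  have h2 : (0 : ℝ) < 2 := by norm_num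
  set L := Real.logb 2 x with hL
  have hL1 : 1 ≤ L := by
    rw [hL, Real.le_logb_iff_rpow_le (by norm_num) hx0, Real.rpow_one]
    exact hx
  set s : ℝ := 1 / (2 * x) with hs
  have hs0 : 0 < s := by positivity
  have hr0 : 0 < 1 + s := by linarith
  have e1 : x + 1 / 2 = x * (1 + s) := by
    rw [hs]; field_simp
  have h3 : (2 : ℝ) ^ L = x := Real.rpow_logb h2 (by norm_num) hx0
  have hL2 : Real.logb 2 (x + 1 / 2) = L + Real.logb 2 (1 + s) := by
    rw [e1, Real.logb_mul hx0.ne' hr0.ne']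
  set M := Real.logb 2 (1 + s) with hM
  have hM0 : 0 ≤ M := Real.logb_nonneg (by norm_num) (by linarith)
  have h4 : (2 : ℝ) ^ M = 1 + s := Real.rpow_logb h2 (by norm_num) hr0
  have h5 : x ^ (M / 2) = (1 + s) ^ (L / 2) := by
    rw [← h3, ← h4, ← Real.rpow_mul h2.le, ← Real.rpow_mul h2.le]
    congr 1
    ring
  have h6 : gg (x + 1 / 2) = gg x * ((1 + s) ^ (L / 2) * (1 + s) ^ ((L + M + 3) / 2)) := by
    unfold gg
    rw [hL2, e1, Real.mul_rpow hx0.le hr0.le]
    have e2 : (L + M + 3) / 2 = (L + 3) / 2 + M / 2 := by ring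
    have h7 : x ^ ((L + M + 3) / 2) = x ^ ((L + 3) / 2) * x ^ (M / 2) := by
      rw [e2, Real.rpow_add hx0]
    rw [h7, h5, ← hL]
    ring
  rw [h6]
  apply mul_le_mul_of_nonneg_left _ (gg_pos hx0).le
  have h8 : (1 + s) ^ (5 / 2 : ℝ) ≤ (1 + s) ^ (L / 2) * (1 + s) ^ ((L + M + 3) / 2) := by
    rw [← Real.rpow_add hr0]
    apply Real.rpow_le_rpow_of_exponent_le (by linarith)
    linarith
  have h9 := one_add_mul_self_le_rpow_one_add (s := s) (by linarith) (p := 5 / 2) (by norm_num)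
  refine le_trans (le_of_eq ?_) (h9.trans h8)
  rw [hs]
  field_simp
  ring

theorem gg_one : gg 1 = 1 := by
  unfold gg
  rw [Real.one_rpow]

theorem gg_two : gg 2 = 4 := by
  have := gg_two_mul (x := 1) one_pos
  rw [gg_one] at this
  norm_num at this
  exact this

variable {H : ℕ → ℕ}

theorem IsH.le_gg (h : IsH H) (e : ℕ) : 4 ≤ e → (H e : ℝ) + 3 ≤ 5 * gg ((e : ℝ) / 2) := by
  have v4 := h.val4
  have v2 := h.val2
  have v3 : H 3 = 11 := by
    have := h.succ 2
    rw [h.val2] at this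
    have e : 2 / 2 = 1 := rfl
    rw [e, h.val1] at this
    exact this
  have v5 : H 5 = 27 := by
    have := h.succ 4
    rw [v4] at this
    have e : 4 / 2 = 2 := rfl
    rw [e, v2] at this
    exact this
  have v6 : H 6 = 37 := by
    have := h.succ 5
    rw [v5] at this
    have e : 5 / 2 = 2 := rfl
    rw [e, v2] at this
    exact this
  have v7 : H 7 = 59 := by
    have := h.succ 6
    rw [v6] at this
    have e : 6 / 2 = 3 := rfl
    rw [e, v3] at this
    exact this
  have v8 : H 8 = 81 := by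
    have := h.succ 7
    rw [v7] at this
    have e : 7 / 2 = 3 := rfl
    rw [e, v3] at this
    exact this
  have g5 : 6.5 ≤ gg (5 / 2) := by
    have h1 := gg_step (x := 2) le_rfl
    rw [gg_two] at h1
    norm_num at h1 ⊢
    linarith
  have g6 : 9.75 ≤ gg 3 := by
    have h1 := gg_step (x := 5 / 2) (by norm_num)
    norm_num at h1 g5 ⊢
    linarith
  have g7 : 13.8 ≤ gg (7 / 2) := by
    have h1 := gg_step (x := 3) (by norm_num)
    norm_num at h1 g6 ⊢
    linarith
  have g8 : 18 ≤ gg 4 := by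
    have h1 := gg_step (x := 7 / 2) (by norm_num)
    norm_num at h1 g7 ⊢
    linarith
  induction e using Nat.strong_induction_on with
  | _ e ih =>
    intro he
    by_cases h9 : e < 9
    · interval_cases e
      · rw [v4]
        norm_num
        rw [gg_two]
        norm_num
      · rw [v5]
        norm_num at g5 ⊢
        linarith
      · rw [v6]
        norm_num at g6 ⊢
        linarith
      · rw [v7]
        norm_num at g7 ⊢
        linarith
      · rw [v8]
        norm_num at g8 ⊢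
        linarith
    · push Not at h9
      obtain ⟨f, rfl⟩ : ∃ f, e = f + 1 := ⟨e - 1, by omega⟩
      have h1 := ih f (by omega) (by omega)
      have h2 := ih (f / 2) (by omega) (by omega)
      have hf : (8 : ℝ) ≤ f := by exact_mod_cast (by omega : 8 ≤ f)
      have h3 : gg (((f / 2 : ℕ) : ℝ) / 2) ≤ gg ((f : ℝ) / 4) := by
        apply gg_mono
        · have : (4 : ℝ) ≤ ((f / 2 : ℕ) : ℝ) := by exact_mod_cast (by omega : 4 ≤ f / 2)
          linarith
        · have : ((f / 2 : ℕ) : ℝ) ≤ (f : ℝ) / 2 := Nat.cast_div_le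
          linarith
      have h4 : gg ((f : ℝ) / 2) = f * gg ((f : ℝ) / 4) := by
        have := gg_two_mul (x := (f : ℝ) / 4) (by linarith)
        have e1 : 2 * ((f : ℝ) / 4) = (f : ℝ) / 2 := by ring
        have e2 : 4 * ((f : ℝ) / 4) = f := by ring
        rw [e1, e2] at this
        exact this
      have h5 := gg_step (x := (f : ℝ) / 2) (by linarith)
      have e3 : (f : ℝ) / 2 + 1 / 2 = ((f + 1 : ℕ) : ℝ) / 2 := by push_cast; ring
      rw [e3] at h5
      have e4 : 5 / (4 * ((f : ℝ) / 2)) = (5 / 2) / f := by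
        field_simp
        ring
      rw [e4] at h5
      have h6 : gg ((f : ℝ) / 2) * (1 + (5 / 2) / f) = gg ((f : ℝ) / 2) +
          (5 / 2) * gg ((f : ℝ) / 4) := by
        rw [h4]
        field_simp
      rw [h6] at h5
      rw [h.succ]
      push_cast at h5 ⊢
      have h7 : 0 < gg ((f : ℝ) / 4) := gg_pos (by linarith)
      linarith

/-- the closed form of the bound -/
theorem IsH.le_closed (h : IsH H) {d : ℕ} (hd : 1 ≤ d) :
    (H (2 * d) : ℝ) ≤ 5 * (d : ℝ) ^ ((Real.logb 2 d + 3) / 2) := by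
  have e1 : (((2 * d : ℕ) : ℝ) / 2) = (d : ℝ) := by push_cast; ring
  rcases Nat.lt_or_ge d 2 with h1 | h1
  · have h2 : d = 1 := by omega
    subst h2
    rw [mul_one, h.val2]
    norm_num
  · have h2 := h.le_gg (2 * d) (by omega)
    rw [e1] at h2
    unfold gg at h2
    linarith

end Pool.Agent.helper40.QP
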