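import Pool.Agent.helper40.QP.Flats

/-!
# MP_0c3135_co: summation over all cells of all flats
-/

set_option autoImplicit false

namespace Pool.Agent.helper40.QP

open Finset Pool.Agent.helper57.AD
open Pool.Agent.helper87.ArrD3 (Arr)

section

variable {ι : Type} [Fintype ι] [DecidableEq ι] {d : ℕ} (a : Arr ι d)

/-- the sum of diameter plus one over all bounded cells of all flats of `k` hyperplanes -/
noncomputable def TT (k : ℕ) : ℕ :=
  ∑ S ∈ powersetCard k (univ : Finset ι), ∑ τ ∈ fb a S, (dm (VF a S τ) d + 1)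

/-- the number of the bounded cells of all flats of `k` hyperplanes -/
noncomputable def NN (k : ℕ) : ℕ := ∑ S ∈ powersetCard k (univ : Finset ι), (fb a S).card

theorem NN_eq {k : ℕ} (hk : k ≤ d) :
    NN a k = (Fintype.card ι).choose k * (Fintype.card ι - k - 1).choose (d - k) := by
  unfold NN
  have h : ∀ S ∈ powersetCard k (univ : Finset ι),
      (fb a S).card = (Fintype.card ι - k - 1).choose (d - k) := by
    intro S hS
    rw [mem_powersetCard] at hS
    rw [card_fb a (by omega), hS.2]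
  rw [sum_congr rfl h, sum_const, card_powersetCard, card_univ, smul_eq_mul]

omit [Fintype ι] in
theorem sum_insert_swap [Fintype ι] (k : ℕ) (G : Finset ι → ℕ) :
    ∑ S ∈ powersetCard k (univ : Finset ι), ∑ j ∈ Sᶜ, G (insert j S) =
      (k + 1) * ∑ S' ∈ powersetCard (k + 1) (univ : Finset ι), G S' := by
  rw [mul_sum]
  have h1 : ∀ S' ∈ powersetCard (k + 1) (univ : Finset ι), (k + 1) * G S' = ∑ j ∈ S', G S' := by
    intro S' hS'
    rw [mem_powersetCard] at hS'
    rw [sum_const, hS'.2, smul_eq_mul]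
  rw [sum_congr rfl h1, sum_sigma', sum_sigma']
  refine sum_bij' (fun x _ => ⟨insert x.2 x.1, x.2⟩) (fun x _ => ⟨x.1.erase x.2, x.2⟩) ?_ ?_ ?_ ?_ ?_
  · rintro ⟨S, j⟩ h
    rw [mem_sigma, mem_powersetCard, mem_compl] at h
    rw [mem_sigma, mem_powersetCard]
    dsimp only at h ⊢
    exact ⟨⟨subset_univ _, by rw [card_insert_of_notMem h.2, h.1.2]⟩, mem_insert_self _ _⟩
  · rintro ⟨S', j⟩ h
    rw [mem_sigma, mem_powersetCard] at h
    rw [mem_sigma, mem_powersetCard, mem_compl]
    dsimp only at h ⊢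
    exact ⟨⟨subset_univ _, by rw [card_erase_of_mem h.2, h.1.2]; rfl⟩, notMem_erase _ _⟩
  · rintro ⟨S, j⟩ h
    rw [mem_sigma, mem_compl] at h
    dsimp only at h ⊢
    rw [erase_insert h.2]
  · rintro ⟨S', j⟩ h
    rw [mem_sigma] at h
    dsimp only at h ⊢
    rw [insert_erase h.2]
  · rintro ⟨S, j⟩ _
    rfl

open Classical in
/-- every bounded cell of a flat is a facet of at most two cells of a larger flat -/
theorem sum_facets_le {S : Finset ι} {j : ι} (w : Finset ι → ℕ) :
    ∑ τ ∈ (fb a S).filter (fun τ => ((VF a S τ).filter (fun s => j ∈ s)).Nonempty), w (τ.erase j) ≤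
      2 * ∑ τ' ∈ fb a (insert j S), w τ' := by
  rw [← sum_fiberwise_of_maps_to (g := fun τ => τ.erase j) (t := fb a (insert j S))]
  · rw [mul_sum]
    apply sum_le_sum
    intro τ' _
    have h1 : ∀ τ ∈ ((fb a S).filter
        (fun τ => ((VF a S τ).filter (fun s => j ∈ s)).Nonempty)).filter
        (fun τ => τ.erase j = τ'), w (τ.erase j) = w τ' := by
      intro τ hτ
      rw [mem_filter] at hτ
      rw [hτ.2]
    rw [sum_congr rfl h1, sum_const, smul_eq_mul]
    apply Nat.mul_le_mul_right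
    have h2 : ((fb a S).filter
        (fun τ => ((VF a S τ).filter (fun s => j ∈ s)).Nonempty)).filter
        (fun τ => τ.erase j = τ') ⊆ {τ', insert j τ'} := by
      intro τ hτ
      rw [mem_filter] at hτ
      rw [mem_insert, mem_singleton]
      by_cases hj : j ∈ τ
      · right
        rw [← hτ.2, insert_erase hj]
      · left
        rw [← hτ.2, erase_eq_of_notMem hj]
    exact (card_le_card h2).trans card_le_two
  · intro τ hτ
    rw [mem_filter] at hτ
    exact fb_insert a hτ.1 hτ.2

open Classical in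
/-- the recursion for the sums -/
theorem TT_step {H : ℕ → ℕ} (hH : IsH H) (hdn : d < Fintype.card ι) {k m : ℕ} (hk : k + m = d)
    (hm : 1 ≤ m) :
    2 * m * TT a k ≤ 2 * (k + 1) * (TT a (k + 1) + H (m - 1) * NN a (k + 1)) +
      2 * m * H (m - 1) * NN a k := by
  set L := H (m - 1) with hL
  -- one cell
  have h1 : ∀ S ∈ powersetCard k (univ : Finset ι), ∀ τ ∈ fb a S,
      2 * m * (dm (VF a S τ) d + 1) ≤
      ∑ j ∈ Sᶜ, (if ((VF a S τ).filter (fun s => j ∈ s)).Nonempty then
        (dm (VF a (insert j S) (τ.erase j)) d + 1 + L) else 0) + 2 * m * L := by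
    intro S hS τ hτ
    rw [mem_powersetCard] at hS
    by_cases hne : (VF a S τ).Nonempty
    · have h2 := one_cell hH (V := VF a S τ) (d := d) (fun s hs => ((mem_VF a).1 hs).1)
        (Cn_VF a hdn (by omega) hτ) hne (S := S) (fun s hs => ((mem_VF a).1 hs).2.1)
        (m := m) (by omega) hm
      refine h2.trans (Nat.add_le_add_right (le_of_eq ?_) _)
      rw [sum_filter]
      apply sum_congr rfl
      intro j _
      rw [VF_insert]
    · rw [not_nonempty_iff_eq_empty] at hne
      have h3 : dm (VF a S τ) d = 0 := by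
        unfold dm
        rw [← Nat.bot_eq_zero, Finset.sup_eq_bot_iff]
        rintro ⟨x, y⟩ _
        exact absurd x.2 (Finset.eq_empty_iff_forall_notMem.1 hne x.1)
      have h4 := hH.pos (m - 1)
      have h5 : 2 * m * (0 + 1) ≤ 2 * m * L := Nat.mul_le_mul_left _ h4
      rw [h3]
      omega
  have h2 : 2 * m * TT a k ≤ ∑ S ∈ powersetCard k (univ : Finset ι), ∑ τ ∈ fb a S,
      (∑ j ∈ Sᶜ, (if ((VF a S τ).filter (fun s => j ∈ s)).Nonempty then
        (dm (VF a (insert j S) (τ.erase j)) d + 1 + L) else 0) + 2 * m * L) := by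
    unfold TT
    rw [mul_sum]
    apply sum_le_sum
    intro S hS
    rw [mul_sum]
    exact sum_le_sum (h1 S hS)
  refine h2.trans ?_
  have h3 : ∑ S ∈ powersetCard k (univ : Finset ι), ∑ τ ∈ fb a S,
      (∑ j ∈ Sᶜ, (if ((VF a S τ).filter (fun s => j ∈ s)).Nonempty then
        (dm (VF a (insert j S) (τ.erase j)) d + 1 + L) else 0) + 2 * m * L) =
      (∑ S ∈ powersetCard k (univ : Finset ι), ∑ j ∈ Sᶜ, ∑ τ ∈ fb a S,
      (if ((VF a S τ).filter (fun s => j ∈ s)).Nonempty then
        (dm (VF a (insert j S) (τ.erase j)) d + 1 + L) else 0)) + 2 * m * L * NN a k := by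
    unfold NN
    rw [mul_sum, ← sum_add_distrib]
    apply sum_congr rfl
    intro S _
    rw [sum_add_distrib, sum_const, smul_eq_mul, mul_comm (fb a S).card, sum_comm]
  rw [h3]
  apply Nat.add_le_add_right
  have h4 : ∀ S ∈ powersetCard k (univ : Finset ι), ∀ j ∈ Sᶜ, ∑ τ ∈ fb a S,
      (if ((VF a S τ).filter (fun s => j ∈ s)).Nonempty then
        (dm (VF a (insert j S) (τ.erase j)) d + 1 + L) else 0) ≤
      2 * ∑ τ' ∈ fb a (insert j S), (dm (VF a (insert j S) τ') d + 1 + L) := by
    intro S _ j _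
    rw [← sum_filter]
    exact sum_facets_le a (fun τ' => dm (VF a (insert j S) τ') d + 1 + L)
  refine (sum_le_sum fun S hS => sum_le_sum (h4 S hS)).trans (le_of_eq ?_)
  rw [sum_insert_swap k (fun S' => 2 * ∑ τ' ∈ fb a S', (dm (VF a S' τ') d + 1 + L)), ← mul_sum]
  have h5 : ∑ S' ∈ powersetCard (k + 1) (univ : Finset ι), ∑ τ' ∈ fb a S',
      (dm (VF a S' τ') d + 1 + L) = TT a (k + 1) + L * NN a (k + 1) := by
    unfold TT NN
    rw [mul_sum, ← sum_add_distrib]
    apply sum_congr rfl
    intro S' _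
    rw [sum_add_distrib, sum_const, smul_eq_mul, mul_comm L]
  rw [h5]
  ring

/-- the dimension `0` -/
theorem TT_top : TT a d = NN a d := by
  unfold TT NN
  apply sum_congr rfl
  intro S hS
  rw [mem_powersetCard] at hS
  rw [card_eq_sum_ones]
  apply sum_congr rfl
  intro τ _
  have h : dm (VF a S τ) d = 0 := by
    unfold dm
    rw [← Nat.bot_eq_zero, Finset.sup_eq_bot_iff]
    rintro ⟨x, y⟩ _
    have h1 : x = y := by
      apply Subtype.ext
      have hx := (mem_VF a).1 x.2
      have hy := (mem_VF a).1 y.2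
      have h2 : S = x.1 := eq_of_subset_of_card_le hx.2.1 (by rw [hx.1, hS.2])
      have h3 : S = y.1 := eq_of_subset_of_card_le hy.2.1 (by rw [hy.1, hS.2])
      rw [← h2, ← h3]
    dsimp only
    rw [h1]
    exact SimpleGraph.dist_self
  rw [h]

end

end Pool.Agent.helper40.QP
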