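import Pool.Agent.helper40.QP.Win

/-!
# MP_0c3135_co: growth of the sequence
-/

set_option autoImplicit false

namespace Pool.Agent.helper40.QP

open Finset

/-- the sequence -/
def hseq : ℕ → ℕ
  | 0 => 1
  | e + 1 => hseq e + 2 * hseq (e / 2)
decreasing_by
  · omega
  · omega

theorem exists_isH : ∃ H : ℕ → ℕ, IsH H :=
  ⟨hseq, by rw [hseq], fun e => by rw [hseq]⟩

variable {H : ℕ → ℕ}

theorem IsH.two_mul (h : IsH H) (d : ℕ) : H (2 * d) = 1 + 4 * ∑ s ∈ range d, H s := by
  induction d with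
  | zero => simp [h.zero]
  | succ d ih =>
    have e1 : 2 * (d + 1) = (2 * d + 1) + 1 := by ring
    have e2 : (2 * d + 1) / 2 = d := by omega
    have e3 : 2 * d / 2 = d := by omega
    rw [e1, h.succ, e2, h.succ, e3, ih, sum_range_succ]
    ring

theorem IsH.le_half (h : IsH H) (e : ℕ) : H e ≤ 1 + 2 * e * H (e / 2) := by
  induction e with
  | zero => simp [h.zero]
  | succ e ih =>
    rw [h.succ]
    have h1 : H (e / 2) ≤ H ((e + 1) / 2) := h.mono (by omega)
    have h2 : 2 * e * H (e / 2) ≤ 2 * e * H ((e + 1) / 2) := Nat.mul_le_mul_left _ h1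
    have h3 : 2 * (e + 1) * H ((e + 1) / 2) = 2 * e * H ((e + 1) / 2) + 2 * H ((e + 1) / 2) := by
      ring
    omega

theorem IsH.sum_le (h : IsH H) (e : ℕ) : 2 * ∑ s ∈ range e, H s ≤ e * (1 + H e) := by
  induction e with
  | zero => simp
  | succ e ih =>
    rw [sum_range_succ, h.succ]
    have h1 := h.le_half e
    nlinarith

theorem IsH.two_mul_le (h : IsH H) (e : ℕ) : H (2 * e) ≤ 1 + 2 * e * (1 + H e) := by
  rw [h.two_mul]
  have := h.sum_le e
  nlinarith

theorem IsH.val1 (h : IsH H) : H 1 = 3 := by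
  have h1 := h.succ 0
  have e : 0 / 2 = 0 := rfl
  rw [zero_add, e, h.zero] at h1
  exact h1

theorem IsH.val2 (h : IsH H) : H 2 = 5 := by
  have := h.succ 1
  rw [h.val1] at this
  have e : 1 / 2 = 0 := rfl
  rw [e, h.zero] at this
  exact this

theorem IsH.val4 (h : IsH H) : H 4 = 17 := by
  have h3 : H 3 = 11 := by
    have := h.succ 2
    rw [h.val2] at this
    have e : 2 / 2 = 1 := rfl
    rw [e, h.val1] at this
    exact this
  have := h.succ 3
  rw [h3] at this
  have e : 3 / 2 = 1 := rfl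
  rw [e, h.val1] at this
  exact this

theorem exp_step (k : ℕ) : (k + 2) + k * (k + 3) / 2 = (k + 1) * (k + 1 + 3) / 2 := by
  have h1 : (k + 1) * (k + 1 + 3) = k * (k + 3) + 2 * (k + 2) := by ring
  rw [h1, Nat.add_mul_div_left _ _ (by norm_num)]
  ring

theorem IsH.pow_le (h : IsH H) (k : ℕ) : H (2 ^ (k + 1)) ≤ 5 * 2 ^ (k * (k + 3) / 2) := by
  rcases Nat.eq_zero_or_pos k with hk | hk
  · subst hk
    have e1 : 2 ^ (0 + 1) = 2 := rfl
    rw [e1, h.val2]
    norm_num
  · have key : H (2 ^ (k + 1)) + 3 ≤ 5 * 2 ^ (k * (k + 3) / 2) := by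
      induction k, hk using Nat.le_induction with
      | base =>
        have e1 : 2 ^ (1 + 1) = 4 := rfl
        rw [e1, h.val4]
      | succ k hk ih =>
        have e1 : 2 ^ (k + 1 + 1) = 2 * 2 ^ (k + 1) := by ring
        have h1 := h.two_mul_le (2 ^ (k + 1))
        rw [e1]
        have h2 : 2 * 2 ^ (k + 1) * (1 + H (2 ^ (k + 1))) + 2 * 2 ^ (k + 1) * 2 ≤
            2 * 2 ^ (k + 1) * (5 * 2 ^ (k * (k + 3) / 2)) := by
          rw [← mul_add]
          apply Nat.mul_le_mul_left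
          omega
        have h3 : 2 * 2 ^ (k + 1) * (5 * 2 ^ (k * (k + 3) / 2)) =
            5 * 2 ^ ((k + 1) * (k + 1 + 3) / 2) := by
          rw [← exp_step, pow_add]
          ring
        have h4 : 1 ≤ 2 ^ (k + 1) := Nat.one_le_two_pow
        omega
    omega

/-- the closed form of the bound -/
theorem IsH.closed (h : IsH H) {d k : ℕ} (hd : d ≤ 2 ^ k) : H (2 * d) ≤ 5 * 2 ^ (k * (k + 3) / 2) := by
  refine le_trans (h.mono ?_) (h.pow_le k)
  rw [pow_succ, mul_comm]
  exact Nat.mul_le_mul_right 2 hd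

end Pool.Agent.helper40.QP
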