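import Pool.Agent.helper57.AD.Main
import Pool.Agent.helper40.QP.Seq

/-!
# MP_0c3135_co: the faces of a simple polytope are connected
-/

set_option autoImplicit false

namespace Pool.Agent.helper40.QP

open Finset Pool.Agent.helper57.AD
open Pool.Agent.helper87.ArrD3 (Arr)

section

variable {ι : Type} [Fintype ι] [DecidableEq ι] {d : ℕ}

/-- an edge inside the face of `S` -/
def FStep (V : Finset (Finset ι)) (d : ℕ) (S x y : Finset ι) : Prop :=
  x ∈ V ∧ y ∈ V ∧ S ⊆ x ∧ S ⊆ y ∧ SP.Adj d x y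

omit [Fintype ι] in
theorem FStep.symm' {V : Finset (Finset ι)} {S x y : Finset ι} (h : FStep V d S x y) :
    FStep V d S y x :=
  ⟨h.2.1, h.1, h.2.2.2.1, h.2.2.1, h.2.2.2.2.symm'⟩

/-- reachability inside the face of `S` -/
def FReach (V : Finset (Finset ι)) (d : ℕ) (S : Finset ι) : Finset ι → Finset ι → Prop :=
  Relation.ReflTransGen (FStep V d S)

omit [Fintype ι] in
theorem FReach.symm' {V : Finset (Finset ι)} {S x y : Finset ι} (h : FReach V d S x y) :
    FReach V d S y x := by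
  unfold FReach at h ⊢
  induction h with
  | refl => exact Relation.ReflTransGen.refl
  | tail _ h2 ih => exact Relation.ReflTransGen.head (FStep.symm' h2) ih

/-- the faces are connected -/
theorem face_reach (p : SP ι d) (S : Finset ι) {s t : Finset ι} (hs : s ∈ p.Vx) (ht : t ∈ p.Vx)
    (hSs : S ⊆ s) (hSt : S ⊆ t) : FReach p.Vx d S s t := by
  classical
  set l : (Fin d → ℝ) →ₗ[ℝ] ℝ := -∑ i ∈ S, p.A i with hl
  have hlv : ∀ u, l (p.pt u) = (∑ i ∈ S, p.c i) - ∑ i ∈ S, p.g i (p.pt u) := by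
    intro u
    rw [hl, LinearMap.neg_apply, LinearMap.sum_apply]
    unfold SP.g
    rw [sum_add_distrib]
    ring
  have hle : ∀ u ∈ p.Vx, l (p.pt u) ≤ ∑ i ∈ S, p.c i := by
    intro u hu
    rw [hlv]
    have : 0 ≤ ∑ i ∈ S, p.g i (p.pt u) := sum_nonneg fun i _ => (p.mem_Vx.1 hu).2 i
    linarith
  have heq : ∀ u ∈ p.Vx, S ⊆ u → l (p.pt u) = ∑ i ∈ S, p.c i := by
    intro u hu hSu
    rw [hlv, sum_eq_zero (f := fun i => p.g i (p.pt u)), sub_zero]
    intro i hi
    exact (p.g_eq_zero_iff hu).2 (hSu hi)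
  have hlt : ∀ u ∈ p.Vx, ¬ S ⊆ u → l (p.pt u) < ∑ i ∈ S, p.c i := by
    intro u hu hSu
    rw [hlv]
    rw [not_subset] at hSu
    obtain ⟨i, hi, hiu⟩ := hSu
    have : 0 < ∑ i ∈ S, p.g i (p.pt u) :=
      sum_pos' (fun i _ => (p.mem_Vx.1 hu).2 i) ⟨i, hi, p.pos_of_notMem hu hiu⟩
    linarith
  obtain ⟨m, hm, hlm⟩ := p.exists_refine l
  obtain ⟨T, hT, hTmax⟩ := Finset.exists_max_image (p.Vx.filter (fun u => S ⊆ u))
    (fun s => m (p.pt s)) ⟨s, mem_filter.2 ⟨hs, hSs⟩⟩
  rw [mem_filter] at hT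
  have key : ∀ k : ℕ, ∀ u ∈ p.Vx, S ⊆ u →
      (p.Vx.filter (fun w => m (p.pt u) < m (p.pt w))).card = k → FReach p.Vx d S u T := by
    intro k
    induction k using Nat.strong_induction_on with
    | _ k ih =>
      intro u hu hSu hk
      by_cases huT : u = T
      · rw [huT]; exact Relation.ReflTransGen.refl
      · have h1 : m (p.pt u) < m (p.pt T) := by
          rcases (hTmax u (mem_filter.2 ⟨hu, hSu⟩)).lt_or_eq with h | h
          · exact h
          · exact absurd (hm u hu T hT.1 h) huT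
        obtain ⟨w, hw, hadj, hlt'⟩ := p.exists_better hu m (p.mem_Vx.1 hT.1).2 h1
        have hSw : S ⊆ w := by
          by_contra h2
          have h3 := hlm w hw u hu (by rw [heq u hu hSu]; exact hlt w hw h2)
          linarith
        refine Relation.ReflTransGen.head ⟨hu, hw, hSu, hSw, hadj⟩ ?_
        refine ih _ ?_ w hw hSw rfl
        rw [← hk]
        apply card_lt_card
        rw [ssubset_iff_of_subset]
        · exact ⟨w, by simp [hw, hlt'], by simp⟩
        · intro x hx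
          rw [mem_filter] at hx ⊢
          exact ⟨hx.1, hlt'.trans hx.2⟩
  have h1 : FReach p.Vx d S s T := key _ s hs hSs rfl
  have h2 : FReach p.Vx d S t T := key _ t ht hSt rfl
  exact Relation.ReflTransGen.trans h1 h2.symm'

end

end Pool.Agent.helper40.QP
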