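import Pool.Agent.helper40.QP.Avg

/-!
# MP_0c3135_co: the quasi-polynomial bound for the average diameter
-/

set_option autoImplicit false

namespace Pool.Agent.helper40.QP

open Finset Pool.Agent.helper57.AD
open Pool.Agent.helper87.ArrD3 (Arr)

theorem NN_step {n d k m c1 c2 : ℕ} (hdn : d < n) (hk : k + m = d) (hm : 1 ≤ m)
    (h1 : c1 = n.choose k * (n - k - 1).choose (d - k))
    (h2 : c2 = n.choose (k + 1) * (n - (k + 1) - 1).choose (d - (k + 1))) :
    (k + 1) * c2 * (n - k - 1) = m * (n - k) * c1 := by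
  obtain ⟨m', rfl⟩ : ∃ m', m = m' + 1 := ⟨m - 1, by omega⟩
  obtain ⟨r, hr⟩ : ∃ r, n = k + (r + 2) := ⟨n - k - 2, by omega⟩
  have e1 : n - k - 1 = r + 1 := by omega
  have e2 : n - (k + 1) - 1 = r := by omega
  have e3 : d - k = m' + 1 := by omega
  have e4 : d - (k + 1) = m' := by omega
  have e5 : n - k = r + 2 := by omega
  rw [e1, e3] at h1
  rw [e2, e4] at h2
  rw [e1, e5, h1, h2]
  have h3 : n.choose (k + 1) * (k + 1) = n.choose k * (r + 2) := by
    rw [Nat.choose_succ_right_eq, e5]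
  have h4 : (r + 1) * r.choose m' = (r + 1).choose (m' + 1) * (m' + 1) :=
    Nat.add_one_mul_choose_eq r m'
  calc (k + 1) * (n.choose (k + 1) * r.choose m') * (r + 1)
      = (n.choose (k + 1) * (k + 1)) * ((r + 1) * r.choose m') := by ring
    _ = (n.choose k * (r + 2)) * ((r + 1).choose (m' + 1) * (m' + 1)) := by rw [h3, h4]
    _ = (m' + 1) * (r + 2) * (n.choose k * (r + 1).choose (m' + 1)) := by ring

/-- one step of the induction -/
theorem step_arith {nd nk nk1 m k1 T T1 N N1 L Ph : ℕ} (hm : 1 ≤ m) (h1 : nd ≤ nk1) (h2 : nd ≤ nk)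
    (hN : k1 * N1 * nk1 = m * nk * N)
    (hT : 2 * m * T ≤ 2 * k1 * (T1 + L * N1) + 2 * m * L * N)
    (ih : nd * T1 ≤ nk1 * Ph * N1) : nd * T ≤ nk * (Ph + 2 * L) * N := by
  have e1 : m * (nd * T) ≤ m * (nk * (Ph + 2 * L) * N) := by
    have hT' : m * T ≤ k1 * (T1 + L * N1) + m * L * N := by nlinarith
    have a1 : nd * (m * T) ≤ nd * (k1 * (T1 + L * N1) + m * L * N) := Nat.mul_le_mul_left _ hT'
    have a2 : k1 * (nd * T1) ≤ k1 * (nk1 * Ph * N1) := Nat.mul_le_mul_left _ ih
    have a3 : nd * (k1 * L * N1) ≤ nk1 * (k1 * L * N1) := Nat.mul_le_mul_right _ h1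
    have a4 : nd * (m * L * N) ≤ nk * (m * L * N) := Nat.mul_le_mul_right _ h2
    calc m * (nd * T) = nd * (m * T) := by ring
      _ ≤ nd * (k1 * (T1 + L * N1) + m * L * N) := a1
      _ = k1 * (nd * T1) + nd * (k1 * L * N1) + nd * (m * L * N) := by ring
      _ ≤ k1 * (nk1 * Ph * N1) + nk1 * (k1 * L * N1) + nk * (m * L * N) :=
          add_le_add (add_le_add a2 a3) a4
      _ = (k1 * N1 * nk1) * (Ph + L) + nk * (m * L * N) := by ring
      _ = (m * nk * N) * (Ph + L) + nk * (m * L * N) := by rw [hN]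
      _ = m * (nk * (Ph + 2 * L) * N) := by ring
  exact Nat.le_of_mul_le_mul_left e1 (by omega)

section

variable {ι : Type} [Fintype ι] [DecidableEq ι] {d : ℕ} (a : Arr ι d)

theorem TT_le {H : ℕ → ℕ} (hH : IsH H) (hdn : d < Fintype.card ι) (m : ℕ) :
    ∀ k, k + m = d → (Fintype.card ι - d) * TT a k ≤
      (Fintype.card ι - k) * (1 + 2 * ∑ i ∈ range m, H i) * NN a k := by
  induction m with
  | zero =>
    intro k hk
    rw [add_zero] at hk
    rw [hk, TT_top, range_zero, sum_empty, mul_zero, add_zero, mul_one]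
  | succ m ih =>
    intro k hk
    have h1 := ih (k + 1) (by omega)
    have h2 := TT_step a hH hdn (k := k) (m := m + 1) hk (by omega)
    have h3 := NN_step (n := Fintype.card ι) hdn hk (by omega : 1 ≤ m + 1)
      (NN_eq a (by omega)) (NN_eq a (by omega))
    have h4 : Fintype.card ι - (k + 1) = Fintype.card ι - k - 1 := by omega
    rw [h4] at h1
    have h5 := step_arith (nd := Fintype.card ι - d) (nk := Fintype.card ι - k)
      (nk1 := Fintype.card ι - k - 1) (by omega : 1 ≤ m + 1) (by omega) (by omega) h3 h2 h1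
    rw [sum_range_succ]
    have h6 : 1 + 2 * (∑ i ∈ range m, H i + H m) =
        1 + 2 * ∑ i ∈ range m, H i + 2 * H (m + 1 - 1) := by
      rw [Nat.add_sub_cancel]
      ring
    rw [h6]
    exact h5

/-- the cells of the empty flat -/
theorem fb_empty : fb a ∅ = a.bcells := by
  ext τ
  rw [mem_fb, a.mem_bcells, compl_empty]
  exact ⟨fun h => h.2, fun h => ⟨subset_univ _, h⟩⟩

theorem TT_zero : TT a 0 = ∑ τ ∈ a.bcells, (dm (VF a ∅ τ) d + 1) := by
  unfold TT
  rw [powersetCard_zero, sum_singleton, fb_empty]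

theorem NN_zero : NN a 0 = a.bcells.card := by
  unfold NN
  rw [powersetCard_zero, sum_singleton, fb_empty]

/-- the average diameter -/
theorem sum_dm_le {H : ℕ → ℕ} (hH : IsH H) (hd : 1 ≤ d) (hdn : d < Fintype.card ι) :
    ∑ τ ∈ a.bcells, dm (VF a ∅ τ) d ≤ H (2 * d) * a.bcells.card := by
  by_cases hn : Fintype.card ι ≤ 2 * d - 1
  · have h1 : ∀ τ ∈ a.bcells, dm (VF a ∅ τ) d ≤ H (2 * d) := by
      intro τ hτ
      have h0 : τ ∪ ∅ ∈ a.bcells := by rw [union_empty]; exact hτ
      have h2 : VF a ∅ τ = (toSP a h0).Vx := by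
        rw [VF_eq a (Subset.refl ∅) h0]
        apply filter_true_of_mem
        intro s _
        exact empty_subset _
      have h3 : (VF a ∅ τ).Nonempty := by
        rw [h2]
        exact (toSP a h0).Vx_nonempty
      have h4 := small_cell hH (V := VF a ∅ τ) (d := d) (fun s hs => ((mem_VF a).1 hs).1)
        (Cn_VF a hdn (by simp) (by rw [fb_empty]; exact hτ)) h3 hd hn
      have h5 : H (d - 1) ≤ H (2 * d) := hH.mono (by omega)
      omega
    have h2 := sum_le_sum h1
    rw [sum_const, smul_eq_mul, mul_comm] at h2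
    exact h2
  · have h1 := TT_le a hH hdn d 0 (by omega)
    rw [TT_zero, NN_zero, sum_add_distrib, Nat.sub_zero, ← card_eq_sum_ones] at h1
    have h2 : 2 * (1 + 2 * ∑ i ∈ range d, H i) = H (2 * d) + 1 := by
      rw [hH.two_mul]
      ring
    obtain ⟨r, hr⟩ : ∃ r, Fintype.card ι - d = r := ⟨_, rfl⟩
    have h3 : Fintype.card ι ≤ 2 * r := by omega
    have hr0 : 0 < r := by omega
    rw [hr] at h1
    set B := a.bcells.card with hB
    have h4 : Fintype.card ι * (1 + 2 * ∑ i ∈ range d, H i) * B ≤ r * ((H (2 * d) + 1) * B) := by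
      rw [← h2]
      calc Fintype.card ι * (1 + 2 * ∑ i ∈ range d, H i) * B
          ≤ 2 * r * (1 + 2 * ∑ i ∈ range d, H i) * B := by
            apply Nat.mul_le_mul_right
            exact Nat.mul_le_mul_right _ h3
        _ = r * (2 * (1 + 2 * ∑ i ∈ range d, H i) * B) := by ring
    have h5 := Nat.le_of_mul_le_mul_left (h1.trans h4) hr0
    have h7 : (H (2 * d) + 1) * B = H (2 * d) * B + B := by ring
    omega

end

end Pool.Agent.helper40.QP
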