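import Pool.Agent.helper40.QP.OneCell

/-!
# MP_0c3135_co: the bounded cells of the flats
-/

set_option autoImplicit false

namespace Pool.Agent.helper40.QP

open Finset Pool.Agent.helper57.AD
open Pool.Agent.helper87.ArrD3 (Arr)

section

variable {ι : Type} [Fintype ι] [DecidableEq ι] {d : ℕ} (a : Arr ι d)

open Classical in
/-- the vertices of the cell `τ` of the flat of `S` -/
noncomputable def VF (S τ : Finset ι) : Finset (Finset ι) :=
  univ.filter (fun s => s.card = d ∧ S ⊆ s ∧ τ \ s = ps a s)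

theorem mem_VF {S τ s : Finset ι} : s ∈ VF a S τ ↔ s.card = d ∧ S ⊆ s ∧ τ \ s = ps a s := by
  unfold VF
  rw [mem_filter]
  simp

/-- every bounded cell of a flat is a face of a bounded cell -/
theorem exists_cell (hdn : d < Fintype.card ι) (S : Finset ι) :
    S.card ≤ d → ∀ τ ∈ fb a S, ∃ t ⊆ S, τ ∪ t ∈ a.bcells := by
  classical
  induction S using Finset.induction_on with
  | empty =>
    intro _ τ hτ
    rw [mem_fb, compl_empty] at hτ
    refine ⟨∅, Subset.refl _, ?_⟩
    rw [union_empty, a.mem_bcells]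
    exact hτ.2
  | insert e S heS ih =>
    intro hS τ hτ
    rw [card_insert_of_notMem heS] at hS
    rw [mem_fb] at hτ
    obtain ⟨hτ1, hτ2, hτ3⟩ := hτ
    set E := (insert e S)ᶜ with hE
    have heE : e ∉ E := by
      rw [hE, mem_compl]
      exact fun h => h (mem_insert_self _ _)
    have hSE : Sᶜ = insert e E := by
      ext i
      rw [hE, mem_insert, mem_compl, mem_compl, mem_insert]
      by_cases hi : i = e
      · rw [hi]
        exact ⟨fun _ => Or.inl rfl, fun _ => heS⟩
      · simp [hi]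
    have heτ : e ∉ τ := fun h => heE (hτ1 h)
    have hcard : d ≤ (S ∪ E).card := by
      have h1 : S ∪ E = univ.erase e := by
        ext i
        rw [hE, mem_union, mem_compl, mem_insert, mem_erase]
        by_cases hi : i = e
        · rw [hi]
          simp [heS]
        · by_cases hiS : i ∈ S <;> simp [hi, hiS]
      rw [h1, card_erase_of_mem (mem_univ e), card_univ]
      omega
    have h := a.step_count (S := S) (E := E) (τ := τ) (e := e) heE heS heτ hS hcard
    rw [if_pos (⟨hτ2, hτ3⟩ : a.NE (insert e S) E τ ∧ a.RT (insert e S) E τ)] at h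
    by_cases h1 : a.NE S (insert e E) τ ∧ a.RT S (insert e E) τ
    · obtain ⟨t, ht, hb⟩ := ih (by omega) τ ((mem_fb a).2 ⟨by
        rw [hSE]; exact hτ1.trans (subset_insert _ _), by rw [hSE]; exact h1⟩)
      exact ⟨t, ht.trans (subset_insert _ _), hb⟩
    · rw [if_neg h1] at h
      have h2 : a.NE S (insert e E) (insert e τ) ∧ a.RT S (insert e E) (insert e τ) := by
        by_contra h3
        rw [if_neg h3] at h
        omega
      obtain ⟨t, ht, hb⟩ := ih (by omega) (insert e τ) ((mem_fb a).2 ⟨by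
        rw [hSE]; exact insert_subset_insert _ hτ1, by rw [hSE]; exact h2⟩)
      refine ⟨insert e t, insert_subset_insert _ ht, ?_⟩
      rw [union_insert, ← insert_union]
      exact hb

theorem VF_eq {S τ t : Finset ι} (ht : t ⊆ S) (h : τ ∪ t ∈ a.bcells) :
    VF a S τ = (toSP a h).Vx.filter (fun s => S ⊆ s) := by
  ext s
  rw [mem_VF, mem_filter, mem_Vx_iff]
  constructor
  · rintro ⟨h1, h2, h3⟩
    refine ⟨⟨h1, ?_⟩, h2⟩
    rw [union_sdiff_distrib, h3, sdiff_eq_empty_iff_subset.2 (ht.trans h2), union_empty]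
  · rintro ⟨⟨h1, h3⟩, h2⟩
    refine ⟨h1, h2, ?_⟩
    rw [union_sdiff_distrib, sdiff_eq_empty_iff_subset.2 (ht.trans h2), union_empty] at h3
    exact h3

/-- the faces of a bounded cell of a flat are connected -/
theorem Cn_VF (hdn : d < Fintype.card ι) {S τ : Finset ι} (hS : S.card ≤ d) (hτ : τ ∈ fb a S) :
    Cn (VF a S τ) d := by
  obtain ⟨t, ht, h⟩ := exists_cell a hdn S hS τ hτ
  rw [VF_eq a ht h]
  intro T x hx y hy hTx hTy
  rw [mem_filter] at hx hy
  have h1 := face_reach (toSP a h) (S ∪ T) hx.1 hy.1 (union_subset hx.2 hTx)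
    (union_subset hy.2 hTy)
  unfold FReach at h1 ⊢
  clear hTy hy
  induction h1 with
  | refl => exact Relation.ReflTransGen.refl
  | tail _ h2 ih =>
    obtain ⟨h3, h4, h5, h6, hadj⟩ := h2
    refine Relation.ReflTransGen.tail ih ?_
    exact ⟨mem_filter.2 ⟨h3, subset_union_left.trans h5⟩,
      mem_filter.2 ⟨h4, subset_union_left.trans h6⟩, subset_union_right.trans h5,
      subset_union_right.trans h6, hadj⟩

theorem VF_insert {S τ : Finset ι} {j : ι} :
    VF a (insert j S) (τ.erase j) = (VF a S τ).filter (fun s => j ∈ s) := by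
  ext s
  rw [mem_filter, mem_VF, mem_VF, insert_subset_iff]
  have h1 : j ∈ s → τ.erase j \ s = τ \ s := by
    intro hj
    ext i
    rw [mem_sdiff, mem_sdiff, mem_erase]
    constructor
    · rintro ⟨⟨_, h2⟩, h3⟩
      exact ⟨h2, h3⟩
    · rintro ⟨h2, h3⟩
      exact ⟨⟨fun h => h3 (h ▸ hj), h2⟩, h3⟩
  constructor
  · rintro ⟨h2, ⟨h3, h4⟩, h5⟩
    exact ⟨⟨h2, h4, by rw [← h1 h3]; exact h5⟩, h3⟩
  · rintro ⟨⟨h2, h4, h5⟩, h3⟩
    exact ⟨h2, ⟨h3, h4⟩, by rw [h1 h3]; exact h5⟩

/-- a facet of a bounded cell of a flat is a bounded cell of a flat -/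
theorem fb_insert {S τ : Finset ι} {j : ι} (hτ : τ ∈ fb a S)
    (hne : ((VF a S τ).filter (fun s => j ∈ s)).Nonempty) : τ.erase j ∈ fb a (insert j S) := by
  obtain ⟨s, hs⟩ := hne
  rw [mem_filter, mem_VF] at hs
  obtain ⟨⟨hsd, hSs, hps⟩, hjs⟩ := hs
  rw [mem_fb] at hτ ⊢
  obtain ⟨h1, h2, h3⟩ := hτ
  refine ⟨?_, ?_, ?_⟩
  · intro i hi
    rw [mem_erase] at hi
    rw [mem_compl, mem_insert]
    push Not
    exact ⟨hi.1, mem_compl.1 (h1 hi.2)⟩
  · have h4 : τ.erase j = ps a s ∪ (τ ∩ s).erase j := by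
      ext i
      rw [mem_union, ← hps, mem_erase, mem_erase, mem_sdiff, mem_inter]
      constructor
      · rintro ⟨h5, h6⟩
        by_cases his : i ∈ s
        · exact Or.inr ⟨h5, h6, his⟩
        · exact Or.inl ⟨h6, his⟩
      · rintro (⟨h5, h6⟩ | ⟨h5, h6, _⟩)
        · exact ⟨fun h => h6 (h ▸ hjs), h5⟩
        · exact ⟨h5, h6⟩
    rw [h4]
    apply ne_at a hsd (insert_subset hjs hSs)
    intro i hi
    rw [mem_erase, mem_inter] at hi
    rw [mem_sdiff, mem_insert]
    push Not
    exact ⟨hi.2.2, hi.1, mem_compl.1 (h1 hi.2.1)⟩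
  · intro y hy1 hy2
    apply h3 y (fun i hi => hy1 i (mem_insert_of_mem hi))
    intro i hi
    by_cases hij : i = j
    · rw [hij, hy1 j (mem_insert_self _ _), mul_zero]
    · have h5 := hy2 i (by
        rw [mem_compl, mem_insert]
        push Not
        exact ⟨hij, mem_compl.1 hi⟩)
      have h6 : Pool.Agent.helper87.ArrD3.Arr.sg (τ.erase j) i =
          Pool.Agent.helper87.ArrD3.Arr.sg τ i := by
        unfold Pool.Agent.helper87.ArrD3.Arr.sg
        by_cases h7 : i ∈ τ
        · rw [if_pos h7, if_pos (mem_erase.2 ⟨hij, h7⟩)]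
        · rw [if_neg h7, if_neg (fun h => h7 (mem_of_mem_erase h))]
      rw [h6] at h5
      exact h5

end

end Pool.Agent.helper40.QP
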