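import Pool.Agent.helper40.QP.Final

/-!
# MP_0c3135_co: the quasi-polynomial bound in the form of the frozen statement
-/

set_option autoImplicit false

namespace Pool.Agent.helper40.QP

open Finset Pool.Agent.helper57.AD
open Pool.Agent.helper87.ArrD3 (Arr)

/-- the diameter of the polytope graph is at most the diameter of the combinatorial graph -/
theorem diam_le_dm {ι : Type} [Fintype ι] [DecidableEq ι] {d : ℕ}
    (p : Pool.Agent.helper57.AD.SP ι d) :
    (SimpleGraph.fromRel
      (fun v w : Set.extremePoints ℝ p.P =>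
        IsExtreme ℝ p.P (segment ℝ (v : Fin d → ℝ) (w : Fin d → ℝ)))).diam ≤ dm p.Vx d := by
  classical
  set H := SimpleGraph.fromRel
    (fun v w : Set.extremePoints ℝ p.P =>
      IsExtreme ℝ p.P (segment ℝ (v : Fin d → ℝ) (w : Fin d → ℝ))) with hH
  let f : {s // s ∈ p.Vx} → Set.extremePoints ℝ p.P := fun s => ⟨p.pt s.1, p.pt_mem_extreme s.2⟩
  have hadj : ∀ s t : {s // s ∈ p.Vx}, (GV p.Vx d).Adj s t → H.Adj (f s) (f t) := by
    intro s t hst
    rw [hH, SimpleGraph.fromRel_adj]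
    have h1 : Pool.Agent.helper57.AD.SP.Adj d s.1 t.1 := hst
    refine ⟨?_, Or.inl (p.segment_extreme s.2 t.2 h1)⟩
    intro h
    apply h1.1
    exact p.pt_inj s.2 t.2 (congrArg Subtype.val h)
  let F : GV p.Vx d →g H := ⟨f, fun {s t} h => hadj s t h⟩
  have hsurj : ∀ z : Set.extremePoints ℝ p.P, ∃ s, f s = z := by
    intro z
    obtain ⟨s, hs, h⟩ := p.exists_of_extreme z.2
    exact ⟨⟨s, hs⟩, Subtype.ext h⟩
  have hpre : (GV p.Vx d).Preconnected := by
    intro s t
    obtain ⟨_, h⟩ := reachable_of_freach (V := p.Vx) (V' := p.Vx) (S := ∅) (fun x hx _ => hx) s.2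
      (face_reach p ∅ s.2 t.2 (empty_subset _) (empty_subset _))
    exact h
  have hdist : ∀ x y, H.edist x y ≤ dm p.Vx d := by
    intro x y
    obtain ⟨s, rfl⟩ := hsurj x
    obtain ⟨t, rfl⟩ := hsurj y
    obtain ⟨w, hw⟩ := (hpre s t).exists_walk_length_eq_dist
    have h1 := (w.map F).edist_le
    have h2 : (w.map F).length = w.length := SimpleGraph.Walk.length_map _ _
    rw [h2, hw] at h1
    refine h1.trans ?_
    exact_mod_cast dist_le_dm s t
  unfold SimpleGraph.diam
  apply ENat.toNat_le_of_le_natCast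
  unfold SimpleGraph.ediam
  exact iSup_le fun x => by
    unfold SimpleGraph.eccent
    exact iSup_le fun y => hdist x y

section

variable {n d : ℕ} {a : Fin n → Fin d → ℝ} {b : Fin n → ℝ}

open Classical in
theorem main_qp
    (h1 : ∀ s : Finset (Fin n), s.card = d →
        ∃! x : Fin d → ℝ, ∀ i ∈ s, ∑ j, a i j * x j = b i)
    (h2 : ∀ s : Finset (Fin n), s.card = d + 1 →
        ¬ ∃ x : Fin d → ℝ, ∀ i ∈ s, ∑ j, a i j * x j = b i)
    {C P : Finset (Fin n) → Set (Fin d → ℝ)}
    (hC : ∀ S, C S = {x | ∀ i, (i ∈ S → b i < ∑ j, a i j * x j) ∧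
                          (i ∉ S → ∑ j, a i j * x j < b i)})
    (hP : ∀ S, P S = {x | ∀ i, (i ∈ S → b i ≤ ∑ j, a i j * x j) ∧
                          (i ∉ S → ∑ j, a i j * x j ≤ b i)})
    (hd : 0 < d) (hdn : d < n) {H : ℕ → ℕ} (hH : IsH H) :
    (∑ S ∈ Finset.univ.filter
          (fun S : Finset (Fin n) => (C S).Nonempty ∧ Bornology.IsBounded (C S)),
        (SimpleGraph.fromRel
          (fun v w : Set.extremePoints ℝ (P S) =>
            IsExtreme ℝ (P S) (segment ℝ (v : Fin d → ℝ) (w : Fin d → ℝ)))).diam) ≤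
      H (2 * d) * (Finset.univ.filter
          (fun S : Finset (Fin n) => (C S).Nonempty ∧ Bornology.IsBounded (C S))).card := by
  rw [filter_eq h1 h2 hC hdn.le]
  set M := Pool.Agent.helper87.ArrD3.mkArr hdn.le a b h1 h2 with hM
  have hle : ∀ S ∈ M.bcells, (SimpleGraph.fromRel
          (fun v w : Set.extremePoints ℝ (P S) =>
            IsExtreme ℝ (P S) (segment ℝ (v : Fin d → ℝ) (w : Fin d → ℝ)))).diam ≤
      dm (VF M ∅ S) d := by
    intro S hS
    have h0 : S ∪ ∅ ∈ M.bcells := by rw [union_empty]; exact hS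
    have h3 : VF M ∅ S = (toSP M hS).Vx := by
      ext s
      rw [mem_VF, mem_Vx_iff]
      exact ⟨fun h => ⟨h.1, h.2.2⟩, fun h => ⟨h.1, empty_subset _, h.2⟩⟩
    rw [P_eq h1 h2 hP hdn.le hS, h3]
    exact diam_le_dm (toSP M hS)
  refine (sum_le_sum hle).trans ?_
  exact sum_dm_le M hH hd (by rw [Fintype.card_fin]; exact hdn)

end

end Pool.Agent.helper40.QP
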