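import Pool.Agent.helper40.QP.Face

/-!
# MP_0c3135_co: one cell: the windows and the facets
-/

set_option autoImplicit false

namespace Pool.Agent.helper40.QP

open Finset Pool.Agent.helper57.AD
open Pool.Agent.helper87.ArrD3 (Arr)

section

variable {ι : Type} [Fintype ι] [DecidableEq ι] {d : ℕ}

/-- the graph on a family of `d`-sets -/
def GV (V : Finset (Finset ι)) (d : ℕ) : SimpleGraph {s // s ∈ V} where
  Adj s t := SP.Adj d s.1 t.1
  symm := ⟨fun _ _ h => h.symm'⟩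
  loopless := ⟨fun _ h => h.1 rfl⟩

/-- the diameter -/
noncomputable def dm (V : Finset (Finset ι)) (d : ℕ) : ℕ :=
  (univ : Finset ({s // s ∈ V} × {s // s ∈ V})).sup (fun q => (GV V d).dist q.1 q.2)

omit [Fintype ι] in
theorem dist_le_dm {V : Finset (Finset ι)} (u v : {s // s ∈ V}) : (GV V d).dist u v ≤ dm V d :=
  Finset.le_sup (f := fun q : {s // s ∈ V} × {s // s ∈ V} => (GV V d).dist q.1 q.2)
    (mem_univ (u, v))

omit [Fintype ι] in
theorem reachable_of_freach {V V' : Finset (Finset ι)} {S s t : Finset ι}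
    (hV' : ∀ x ∈ V, S ⊆ x → x ∈ V') (hs : s ∈ V') (h : FReach V d S s t) :
    ∃ ht : t ∈ V', (GV V' d).Reachable ⟨s, hs⟩ ⟨t, ht⟩ := by
  unfold FReach at h
  induction h with
  | refl => exact ⟨hs, SimpleGraph.Reachable.refl _⟩
  | tail _ h2 ih =>
    obtain ⟨h3, h4⟩ := ih
    refine ⟨hV' _ h2.2.1 h2.2.2.2.1, h4.trans ?_⟩
    exact SimpleGraph.Adj.reachable (G := GV V' d) h2.2.2.2.2

/-- all faces of the family are connected -/
def Cn (V : Finset (Finset ι)) (d : ℕ) : Prop :=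
  ∀ T : Finset ι, ∀ s ∈ V, ∀ t ∈ V, T ⊆ s → T ⊆ t → FReach V d T s t

omit [Fintype ι] in
theorem Cn.preconnected {V : Finset (Finset ι)} (h : Cn V d) : (GV V d).Preconnected := by
  intro s t
  obtain ⟨ht, h1⟩ := reachable_of_freach (V' := V) (fun x hx _ => hx) s.2
    (h ∅ s s.2 t t.2 (empty_subset _) (empty_subset _))
  exact h1

omit [Fintype ι] in
theorem Cn.filter {V : Finset (Finset ι)} (h : Cn V d) (j : ι) :
    Cn (V.filter (fun s => j ∈ s)) d := by
  intro T s hs t ht hTs hTt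
  rw [mem_filter] at hs ht
  have h1 := h (insert j T) s hs.1 t ht.1 (insert_subset hs.2 hTs) (insert_subset ht.2 hTt)
  unfold FReach at h1 ⊢
  clear hTt
  induction h1 with
  | refl => exact Relation.ReflTransGen.refl
  | tail _ h2 ih =>
    obtain ⟨hx, hy, hjx, hjy, hadj⟩ := h2
    refine Relation.ReflTransGen.tail (ih ⟨hx, hjx (mem_insert_self _ _)⟩) ?_
    exact ⟨mem_filter.2 ⟨hx, hjx (mem_insert_self _ _)⟩,
      mem_filter.2 ⟨hy, hjy (mem_insert_self _ _)⟩,
      (subset_insert _ _).trans hjx, (subset_insert _ _).trans hjy, hadj⟩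

open Classical in
/-- the levels -/
noncomputable def lev {V : Finset (Finset ι)} (d : ℕ) (u : {s // s ∈ V}) (s : Finset ι) : ℕ :=
  if h : s ∈ V then (GV V d).dist u ⟨s, h⟩ else 0

omit [Fintype ι] in
theorem lev_of_mem {V : Finset (Finset ι)} (u : {s // s ∈ V}) {s : Finset ι} (h : s ∈ V) :
    lev d u s = (GV V d).dist u ⟨s, h⟩ := by
  unfold lev
  rw [dif_pos h]

omit [Fintype ι] in
theorem lev_step {V : Finset (Finset ι)} (hc : Cn V d) (u : {s // s ∈ V}) {s t : Finset ι}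
    (hs : s ∈ V) (ht : t ∈ V) (hadj : SP.Adj d s t) : lev d u t ≤ lev d u s + 1 := by
  rw [lev_of_mem u hs, lev_of_mem u ht]
  have h5 : (GV V d).dist ⟨s, hs⟩ ⟨t, ht⟩ = 1 := by
    have : (GV V d).Adj ⟨s, hs⟩ ⟨t, ht⟩ := hadj
    rw [SimpleGraph.dist_eq_one_iff_adj.2 this]
  have h6 : (GV V d).dist u ⟨t, ht⟩ ≤ (GV V d).dist u ⟨s, hs⟩ + (GV V d).dist ⟨s, hs⟩ ⟨t, ht⟩ :=
    SimpleGraph.Connected.dist_triangle (by
      have : Nonempty {s // s ∈ V} := ⟨u⟩
      exact ⟨hc.preconnected⟩)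
  rw [h5] at h6
  exact h6

omit [Fintype ι] in
theorem lev_intv {V : Finset (Finset ι)} (hc : Cn V d) (u : {s // s ∈ V}) :
    Intv V (lev d u) := by
  intro T s hs t ht hTs hTt
  have h := hc T s hs t ht hTs hTt
  unfold FReach at h
  induction h with
  | refl =>
    intro m h1 h2
    exact ⟨s, hs, hTs, le_antisymm h1 h2⟩
  | @tail b c _ h2 ih =>
    intro m h3 h4
    by_cases h5 : m ≤ lev d u b
    · exact ih h2.1 h2.2.2.1 m h3 h5
    · have h6 := lev_step hc u h2.1 h2.2.1 h2.2.2.2.2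
      exact ⟨c, h2.2.1, h2.2.2.2.1, by omega⟩

omit [Fintype ι] in
/-- levels along a walk in a subfamily -/
theorem lev_walk {V V' : Finset (Finset ι)} (hVV : V' ⊆ V) (hc : Cn V d) (u : {s // s ∈ V})
    {x y : {s // s ∈ V'}} (w : (GV V' d).Walk x y) : lev d u y.1 ≤ lev d u x.1 + w.length := by
  induction w with
  | nil => simp
  | cons h w ih =>
    rw [SimpleGraph.Walk.length_cons]
    have h1 := lev_step hc u (hVV (Subtype.prop _)) (hVV (Subtype.prop _)) h
    omega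

omit [Fintype ι] in
theorem lev_dm {V : Finset (Finset ι)} (hc : Cn V d) (u : {s // s ∈ V}) (j : ι) {r r' : Finset ι}
    (hr : r ∈ V) (hr' : r' ∈ V) (hj : j ∈ r) (hj' : j ∈ r') :
    lev d u r' ≤ lev d u r + dm (V.filter (fun s => j ∈ s)) d := by
  have h1 : r ∈ V.filter (fun s => j ∈ s) := mem_filter.2 ⟨hr, hj⟩
  have h2 : r' ∈ V.filter (fun s => j ∈ s) := mem_filter.2 ⟨hr', hj'⟩
  obtain ⟨w, hw⟩ := ((hc.filter j).preconnected ⟨r, h1⟩ ⟨r', h2⟩).exists_walk_length_eq_dist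
  have h3 := lev_walk (filter_subset _ _) hc u w
  rw [hw] at h3
  exact h3.trans (Nat.add_le_add_left (dist_le_dm _ _) _)

open Classical in
/-- one cell: the diameter is bounded by the diameters of the facets -/
theorem one_cell {H : ℕ → ℕ} (hH : IsH H) {V : Finset (Finset ι)} (hV : ∀ s ∈ V, s.card = d)
    (hc : Cn V d) (hne : V.Nonempty) {S : Finset ι} (hS : ∀ s ∈ V, S ⊆ s) {m : ℕ}
    (hm : S.card + m = d) (hm1 : 1 ≤ m) :
    2 * m * (dm V d + 1) ≤
      ∑ j ∈ Sᶜ.filter (fun j => (V.filter (fun s => j ∈ s)).Nonempty),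
        (dm (V.filter (fun s => j ∈ s)) d + 1 + H (m - 1)) + 2 * m * H (m - 1) := by
  obtain ⟨s0, hs0⟩ := hne
  have huniv : (univ : Finset ({s // s ∈ V} × {s // s ∈ V})).Nonempty :=
    ⟨(⟨s0, hs0⟩, ⟨s0, hs0⟩), mem_univ _⟩
  obtain ⟨⟨u, v⟩, -, huv⟩ := Finset.exists_mem_eq_sup _ huniv
    (fun q : {s // s ∈ V} × {s // s ∈ V} => (GV V d).dist q.1 q.2)
  have hD : dm V d = lev d u v.1 := by
    rw [lev_of_mem u v.2]
    exact huv
  have hu0 : lev d u u.1 = 0 := by
    rw [lev_of_mem u u.2]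
    exact SimpleGraph.dist_self
  set D := dm V d with hDdef
  set L := H (m - 1) with hL
  set lam := lev d u with hlam
  have hI : Intv V lam := lev_intv hc u
  have hlevel : ∀ x, x ≤ D → ∃ r ∈ V, S ⊆ r ∧ lam r = x := by
    intro x hx
    exact hI S u.1 u.2 v.1 v.2 (hS _ u.2) (hS _ v.2) x (by omega) (by omega)
  -- windows are rich
  have hwin : ∀ y ∈ Icc L D, 2 * m ≤ (act V lam S (y - L) y).card := by
    intro y hy
    rw [mem_Icc] at hy
    by_contra hcon
    push Not at hcon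
    have h1 := window hH hV hI (m - 1) m S (y - L) y hm (hlevel _ (by omega)) (hlevel _ hy.2)
      (Nat.sub_le _ _) (by omega)
    have h2 := hH.pos (m - 1 - m)
    omega
  -- facets are in few windows
  set J := Sᶜ.filter (fun j => (V.filter (fun s => j ∈ s)).Nonempty) with hJ
  have hfac : ∀ j ∈ J, ((Icc L D).filter (fun y => j ∈ act V lam S (y - L) y)).card ≤
      dm (V.filter (fun s => j ∈ s)) d + 1 + L := by
    intro j hj
    rw [hJ, mem_filter] at hj
    obtain ⟨r1, hr1, hmin⟩ := Finset.exists_min_image _ lam hj.2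
    obtain ⟨r2, hr2, hmax⟩ := Finset.exists_max_image _ lam hj.2
    have h1 : (Icc L D).filter (fun y => j ∈ act V lam S (y - L) y) ⊆ Icc (lam r1) (lam r2 + L) := by
      intro y hy
      rw [mem_filter, mem_act] at hy
      obtain ⟨_, _, r, hr, hjr, h2, h3⟩ := hy
      have h4 : r ∈ V.filter (fun s => j ∈ s) :=
        mem_filter.2 ⟨hr, hjr (mem_insert_self _ _)⟩
      have h5 := hmin r h4
      have h6 := hmax r h4
      rw [mem_Icc]
      omega
    refine (card_le_card h1).trans ?_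
    rw [Nat.card_Icc]
    rw [mem_filter] at hr1 hr2
    have h7 : lam r2 ≤ lam r1 + dm (V.filter (fun s => j ∈ s)) d :=
      lev_dm hc u j hr1.1 hr2.1 hr1.2 hr2.2
    omega
  -- double counting
  have h1 : (Icc L D).card * (2 * m) ≤ ∑ y ∈ Icc L D, (act V lam S (y - L) y).card := by
    rw [← smul_eq_mul]
    exact Finset.card_nsmul_le_sum _ _ _ hwin
  have h2 : ∑ y ∈ Icc L D, (act V lam S (y - L) y).card =
      ∑ j ∈ J, ((Icc L D).filter (fun y => j ∈ act V lam S (y - L) y)).card := by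
    have h3 : ∀ y ∈ Icc L D, (act V lam S (y - L) y).card =
        ∑ j ∈ J, if j ∈ act V lam S (y - L) y then 1 else 0 := by
      intro y _
      rw [← card_filter]
      congr 1
      ext j
      rw [mem_filter, hJ, mem_filter, mem_compl]
      constructor
      · intro hj
        obtain ⟨h4, r, hr, hjr, _⟩ := mem_act.1 hj
        exact ⟨⟨h4, r, mem_filter.2 ⟨hr, hjr (mem_insert_self _ _)⟩⟩, hj⟩
      · rintro ⟨_, hj⟩
        exact hj
    rw [sum_congr rfl h3, sum_comm]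
    apply sum_congr rfl
    intro j _
    rw [card_filter]
  have h4 := sum_le_sum hfac
  rw [← h2] at h4
  have h5 := h1.trans h4
  rw [Nat.card_Icc] at h5
  have h6 : 2 * m * (D + 1) ≤ (D + 1 - L) * (2 * m) + 2 * m * L := by
    have h7 : D + 1 ≤ (D + 1 - L) + L := by omega
    calc 2 * m * (D + 1) ≤ 2 * m * ((D + 1 - L) + L) := Nat.mul_le_mul_left _ h7
      _ = (D + 1 - L) * (2 * m) + 2 * m * L := by ring
  omega

/-- a family with few elements has small diameter -/
theorem small_cell {H : ℕ → ℕ} (hH : IsH H) {V : Finset (Finset ι)} (hV : ∀ s ∈ V, s.card = d)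
    (hc : Cn V d) (hne : V.Nonempty) (hd : 1 ≤ d) (hn : Fintype.card ι ≤ 2 * d - 1) :
    dm V d + 1 ≤ H (d - 1) := by
  obtain ⟨s0, hs0⟩ := hne
  have huniv : (univ : Finset ({s // s ∈ V} × {s // s ∈ V})).Nonempty :=
    ⟨(⟨s0, hs0⟩, ⟨s0, hs0⟩), mem_univ _⟩
  obtain ⟨⟨u, v⟩, -, huv⟩ := Finset.exists_mem_eq_sup _ huniv
    (fun q : {s // s ∈ V} × {s // s ∈ V} => (GV V d).dist q.1 q.2)
  have hD : dm V d = lev d u v.1 := by
    rw [lev_of_mem u v.2]
    exact huv
  have hu0 : lev d u u.1 = 0 := by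
    rw [lev_of_mem u u.2]
    exact SimpleGraph.dist_self
  have h1 := window hH hV (lev_intv hc u) (d - 1) d ∅ 0 (dm V d) (by simp)
    ⟨u.1, u.2, empty_subset _, hu0⟩ ⟨v.1, v.2, empty_subset _, hD.symm⟩ (Nat.zero_le _)
    ((card_le_univ _).trans (by omega))
  have h2 := hH.pos (d - 1 - d)
  omega

end

end Pool.Agent.helper40.QP
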