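import Mathlib

/-!
# MP_0c3135_co: windows of a layered family (the Kalai-Kleitman induction in terms of the excess)
-/

set_option autoImplicit false

namespace Pool.Agent.helper40.QP

open Finset

/-- the sequence `1, 3, 5, 11, 17, 27, 37, 59, 81, ...` -/
structure IsH (H : ℕ → ℕ) : Prop where
  zero : H 0 = 1
  succ : ∀ e, H (e + 1) = H e + 2 * H (e / 2)

theorem IsH.mono {H : ℕ → ℕ} (h : IsH H) : Monotone H := by
  apply monotone_nat_of_le_succ
  intro e
  rw [h.succ]
  exact Nat.le_add_right _ _

theorem IsH.pos {H : ℕ → ℕ} (h : IsH H) (e : ℕ) : 1 ≤ H e := by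
  have := h.mono (Nat.zero_le e)
  rwa [h.zero] at this

section

variable {ι : Type} [Fintype ι] [DecidableEq ι]

/-- the levels of the members containing `S` form an interval -/
def Intv (V : Finset (Finset ι)) (lam : Finset ι → ℕ) : Prop :=
  ∀ S : Finset ι, ∀ s ∈ V, ∀ t ∈ V, S ⊆ s → S ⊆ t → ∀ m, lam s ≤ m → m ≤ lam t →
    ∃ r ∈ V, S ⊆ r ∧ lam r = m

open Classical in
/-- the active elements of the window `[p, q]` in the face of `S` -/
noncomputable def act (V : Finset (Finset ι)) (lam : Finset ι → ℕ) (S : Finset ι) (p q : ℕ) :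
    Finset ι :=
  univ.filter (fun j => j ∉ S ∧ ∃ r ∈ V, insert j S ⊆ r ∧ p ≤ lam r ∧ lam r ≤ q)

variable {V : Finset (Finset ι)} {lam : Finset ι → ℕ} {d : ℕ}

theorem mem_act {S : Finset ι} {p q : ℕ} {j : ι} :
    j ∈ act V lam S p q ↔ j ∉ S ∧ ∃ r ∈ V, insert j S ⊆ r ∧ p ≤ lam r ∧ lam r ≤ q := by
  unfold act
  rw [mem_filter]
  simp

theorem act_mono {S : Finset ι} {p q p' q' : ℕ} (hp : p ≤ p') (hq : q' ≤ q) :
    act V lam S p' q' ⊆ act V lam S p q := by
  intro j hj
  rw [mem_act] at hj ⊢
  obtain ⟨h1, r, h2, h3, h4, h5⟩ := hj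
  exact ⟨h1, r, h2, h3, hp.trans h4, h5.trans hq⟩

theorem sdiff_subset_act {S s : Finset ι} {p q : ℕ} (hs : s ∈ V) (hS : S ⊆ s) (hp : p ≤ lam s)
    (hq : lam s ≤ q) : s \ S ⊆ act V lam S p q := by
  intro j hj
  rw [mem_sdiff] at hj
  rw [mem_act]
  exact ⟨hj.2, s, hs, insert_subset hj.1 hS, hp, hq⟩

theorem le_card_act (hV : ∀ s ∈ V, s.card = d) {S s : Finset ι} {p q m : ℕ} (hm : S.card + m = d)
    (hs : s ∈ V) (hS : S ⊆ s) (hp : p ≤ lam s) (hq : lam s ≤ q) :
    m ≤ (act V lam S p q).card := by
  have h1 := card_le_card (sdiff_subset_act hs hS hp hq)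
  rw [card_sdiff_of_subset hS, hV s hs] at h1
  omega

/-- a window with few active elements is short -/
theorem window {H : ℕ → ℕ} (hH : IsH H) (hV : ∀ s ∈ V, s.card = d) (hI : Intv V lam) :
    ∀ (e m : ℕ) (S : Finset ι) (p q : ℕ), S.card + m = d → (∃ s ∈ V, S ⊆ s ∧ lam s = p) →
      (∃ t ∈ V, S ⊆ t ∧ lam t = q) → p ≤ q → (act V lam S p q).card ≤ m + e →
      q + H (e - m) ≤ p + H e := by
  intro e
  induction e using Nat.strong_induction_on with
  | _ e ihe =>
  intro m
  induction m with
  | zero =>
    rintro S p q hS ⟨s, hs, hSs, rfl⟩ ⟨t, ht, hSt, rfl⟩ _ _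
    have h1 : S = s := eq_of_subset_of_card_le hSs (by rw [hV s hs]; omega)
    have h2 : S = t := eq_of_subset_of_card_le hSt (by rw [hV t ht]; omega)
    rw [← h1, ← h2, Nat.sub_zero]
  | succ m ihm =>
    intro S p q hS hps hqt hpq hA
    obtain ⟨s, hs, hSs, hsp⟩ := hps
    obtain ⟨t, ht, hSt, htq⟩ := hqt
    set K := (e + (m + 1)) / 2 with hK
    have hlev : ∀ x, p ≤ x → x ≤ q → ∃ r ∈ V, S ⊆ r ∧ lam r = x := by
      intro x hx1 hx2
      exact hI S s hs t ht hSs hSt x (by omega) (by omega)
    -- a window with at most `K` active elements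
    have hsmall : ∀ x y, p ≤ x → x ≤ y → y ≤ q → (act V lam S x y).card ≤ K →
        m + 1 ≤ e ∧ y + 1 ≤ x + H ((e - (m + 1)) / 2) := by
      intro x y hpx hxy hyq hc
      obtain ⟨r, hr, hSr, hrx⟩ := hlev x hpx (hxy.trans hyq)
      have h1 := le_card_act (lam := lam) (p := x) (q := y) hV hS hr hSr (by omega) (by omega)
      have h2 : m + 1 ≤ e := by omega
      refine ⟨h2, ?_⟩
      have h3 := ihe ((e - (m + 1)) / 2) (by omega) (m + 1) S x y hS (hlev x hpx (hxy.trans hyq))
        (hlev y (hpx.trans hxy) hyq) hxy (by omega)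
      have h4 := hH.pos ((e - (m + 1)) / 2 - (m + 1))
      omega
    -- the gain
    obtain ⟨B, hB1, hB2⟩ : ∃ B : ℕ, H (e - (m + 1)) + 2 * B ≤ H (e - m) ∧
        (m + 1 ≤ e → H ((e - (m + 1)) / 2) ≤ B) := by
      by_cases hme : m + 1 ≤ e
      · refine ⟨H ((e - (m + 1)) / 2), ?_, fun _ => le_rfl⟩
        have h1 : e - m = (e - (m + 1)) + 1 := by omega
        rw [h1, hH.succ]
      · refine ⟨0, ?_, fun h => absurd h hme⟩
        rw [mul_zero, add_zero]
        exact hH.mono (by omega)
    have hmono : H (e - m) ≤ H e := hH.mono (Nat.sub_le _ _)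
    by_cases hbig : (act V lam S p q).card ≤ K
    · obtain ⟨h1, h2⟩ := hsmall p q le_rfl hpq le_rfl hbig
      have h3 := hB2 h1
      omega
    · push Not at hbig
      -- the left window
      obtain ⟨p', hp1, hp2, hp3, hp4⟩ : ∃ p', p ≤ p' ∧ p' ≤ q ∧ K < (act V lam S p p').card ∧
          p' ≤ p + B := by
        classical
        have hex : ∃ x, p ≤ x ∧ K < (act V lam S p x).card := ⟨q, hpq, hbig⟩
        have hspec := Nat.find_spec hex
        refine ⟨Nat.find hex, hspec.1, Nat.find_min' hex ⟨hpq, hbig⟩, hspec.2, ?_⟩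
        by_cases h0 : Nat.find hex = p
        · omega
        · have h1 := hspec.1
          have h2 := Nat.find_min' hex ⟨hpq, hbig⟩
          have h3 : ¬ (p ≤ Nat.find hex - 1 ∧ K < (act V lam S p (Nat.find hex - 1)).card) :=
            Nat.find_min hex (by omega)
          have h4 : (act V lam S p (Nat.find hex - 1)).card ≤ K := by
            by_contra h5
            exact h3 ⟨by omega, by omega⟩
          obtain ⟨h5, h6⟩ := hsmall p (Nat.find hex - 1) le_rfl (by omega) (by omega) h4
          have h7 := hB2 h5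
          omega
      -- the right window
      obtain ⟨q', hq1, hq2, hq3, hq4⟩ : ∃ q', p ≤ q' ∧ q' ≤ q ∧ K < (act V lam S q' q).card ∧
          q ≤ q' + B := by
        classical
        have hspec := Nat.findGreatest_spec (P := fun x => K < (act V lam S x q).card) hpq hbig
        have hle : p ≤ Nat.findGreatest (fun x => K < (act V lam S x q).card) q :=
          Nat.le_findGreatest hpq hbig
        have hle2 : Nat.findGreatest (fun x => K < (act V lam S x q).card) q ≤ q :=
          Nat.findGreatest_le q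
        refine ⟨_, hle, hle2, hspec, ?_⟩
        set y := Nat.findGreatest (fun x => K < (act V lam S x q).card) q with hy
        by_cases h0 : y = q
        · omega
        · have h3 : ¬ (K < (act V lam S (y + 1) q).card) :=
            Nat.findGreatest_is_greatest (P := fun x => K < (act V lam S x q).card)
              (lt_of_lt_of_le (Nat.lt_succ_self _) le_rfl) (by omega)
          obtain ⟨h5, h6⟩ := hsmall (y + 1) q (by omega) (by omega) le_rfl (by omega)
          have h7 := hB2 h5
          omega
      -- a common active element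
      obtain ⟨j, hj1, hj2⟩ : ∃ j, j ∈ act V lam S p p' ∧ j ∈ act V lam S q' q := by
        by_contra hcon
        push Not at hcon
        have hdis : Disjoint (act V lam S p p') (act V lam S q' q) := by
          rw [disjoint_left]
          exact hcon
        have h1 : (act V lam S p p' ∪ act V lam S q' q).card ≤ (act V lam S p q).card :=
          card_le_card (union_subset (act_mono le_rfl hp2) (act_mono hq1 le_rfl))
        rw [card_union_of_disjoint hdis] at h1
        omega
      by_cases hpq' : q' ≤ p'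
      · omega
      · push Not at hpq'
        have hjA : j ∈ act V lam S p q := act_mono le_rfl hp2 hj1
        obtain ⟨hjS, r1, hr1, hjr1, hr1a, hr1b⟩ := mem_act.1 hj1
        obtain ⟨_, r2, hr2, hjr2, hr2a, hr2b⟩ := mem_act.1 hj2
        have h1 := ihm (insert j S) p' q' (by rw [card_insert_of_notMem hjS]; omega)
          (hI _ r1 hr1 r2 hr2 hjr1 hjr2 p' hr1b (by omega))
          (hI _ r1 hr1 r2 hr2 hjr1 hjr2 q' (by omega) hr2a) hpq'.le (by
            have h2 : act V lam (insert j S) p' q' ⊆ (act V lam S p q).erase j := by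
              intro x hx
              rw [mem_act] at hx
              obtain ⟨hx1, r, hr, hxr, hra, hrb⟩ := hx
              rw [mem_insert] at hx1
              push Not at hx1
              rw [mem_erase, mem_act]
              refine ⟨hx1.1, hx1.2, r, hr, ?_, hp1.trans hra, hrb.trans hq2⟩
              exact (insert_subset_insert _ (subset_insert _ _)).trans hxr
            have h3 := card_le_card h2
            rw [card_erase_of_mem hjA] at h3
            omega)
        omega

end

end Pool.Agent.helper40.QP
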